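import Pool.Agent.Helper75.FU.StP
import Pool.Agent.Helper78.GU.M_D3

/-! # Project FU, module N1: the dimension of `R(X)` (helper3) -/

set_option autoImplicit false

namespace Pool.Agent.Helper3.FU

open Polynomial IsLocalRing Pool.Agent.Helper75.FU

universe u

/-- a prime of `R[X]` over the maximal ideal without monic elements is the extension of it -/
theorem n1_eq {R : Type u} [CommRing R] [IsLocalRing R] (Q : Ideal R[X])
    (hQ : Q.comap C = maximalIdeal R) (hm : ∀ f ∈ Q, ¬ f.Monic) :
    Q = (maximalIdeal R).map C := by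
  have hle : (maximalIdeal R).map C ≤ Q := Ideal.map_le_iff_le_comap.2 hQ.ge
  refine le_antisymm ?_ hle
  intro f hf
  by_contra hfm
  have hker : RingHom.ker (mapRingHom (residue R)) = (maximalIdeal R).map C := by
    rw [Polynomial.ker_mapRingHom, IsLocalRing.ker_residue]
  rw [← hker, RingHom.mem_ker] at hfm
  simp only [coe_mapRingHom] at hfm
  set g : (ResidueField R)[X] := f.map (residue R) with hg
  have hlc : g.leadingCoeff ≠ 0 := leadingCoeff_ne_zero.2 hfm
  obtain ⟨u, hu⟩ := residue_surjective (R := R) (g.leadingCoeff)⁻¹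
  have hmon : (g * C (g.leadingCoeff)⁻¹).Monic := monic_mul_leadingCoeff_inv hfm
  have hlift : g * C (g.leadingCoeff)⁻¹ ∈ lifts (residue R) := by
    rw [mem_lifts]
    exact ⟨f * C u, by rw [Polynomial.map_mul, map_C, hu]⟩
  obtain ⟨q, hq1, -, hq3⟩ := lifts_and_natDegree_eq_and_monic hlift hmon
  apply hm q _ hq3
  have hd : q - f * C u ∈ (maximalIdeal R).map C := by
    rw [← hker, RingHom.mem_ker]
    simp only [coe_mapRingHom]
    rw [Polynomial.map_sub, hq1, Polynomial.map_mul, map_C, hu, sub_self]
  have := Q.add_mem (hle hd) (Q.mul_mem_right (C u) hf)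
  simpa using this

theorem hN1 : StN1.{u} := by
  intro R _ _ _ N hN
  have hnoe : IsNoetherianRing (RX R) :=
    IsLocalization.isNoetherianRing (monS R) (RX R) inferInstance
  refine ⟨hnoe, ?_⟩
  have hmN : (maximalIdeal R).height ≤ N := by
    have h := IsLocalRing.maximalIdeal_height_eq_ringKrullDim (R := R)
    rw [← h] at hN
    exact_mod_cast hN
  rw [ringKrullDim_le_iff_height_le]
  intro Q' hQ'
  set Q : Ideal R[X] := Q'.under R[X] with hQdef
  have hQp : Q.IsPrime := Ideal.IsPrime.comap _
  rw [← IsLocalization.height_under (monS R) Q']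
  have hmono : ∀ f ∈ Q, ¬ f.Monic := by
    intro f hf hfm
    apply hQ'.ne_top
    apply Ideal.eq_top_of_isUnit_mem Q' (x := algebraMap R[X] (RX R) f) hf
    exact IsLocalization.map_units (RX R) (⟨f, hfm⟩ : monS R)
  suffices hs : Q.height ≤ (N : ℕ∞) by exact_mod_cast hs
  by_cases hc : Q.comap C = maximalIdeal R
  · have hQe := n1_eq Q hc hmono
    set M : Ideal R[X] := (maximalIdeal R).comap (constantCoeff (R := R)) with hM
    have hMp : M.IsPrime := Ideal.IsPrime.comap _
    have hlt : Q < M := by
      refine lt_of_le_of_ne ?_ ?_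
      · rw [hQe, Ideal.map_le_iff_le_comap]
        intro a ha
        rw [Ideal.mem_comap, hM, Ideal.mem_comap]
        simpa using ha
      · intro h
        apply hmono X _ monic_X
        rw [h, hM, Ideal.mem_comap]
        simp
    have h1 : Q.height < M.height := Ideal.height_strict_mono_of_isPrime hlt
    have h2 := Pool.Agent.Helper78.GU.height_le_comap_C M
    have h3 : M.comap C = maximalIdeal R := by
      ext a
      simp [hM]
    rw [h3] at h2
    have h4 : Q.height < N + 1 := lt_of_lt_of_le h1 (h2.trans (by gcongr))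
    exact (ENat.lt_add_one_iff (ENat.natCast_ne_top N)).1 h4
  · have hpp : (Q.comap (C : R →+* R[X])).IsPrime := Ideal.IsPrime.comap _
    have hlt : Q.comap C < maximalIdeal R :=
      lt_of_le_of_ne (IsLocalRing.le_maximalIdeal hpp.ne_top) hc
    have h1 : (Q.comap (C : R →+* R[X])).height < (maximalIdeal R).height :=
      Ideal.height_strict_mono_of_isPrime hlt
    have h2 := Pool.Agent.Helper78.GU.height_le_comap_C Q
    exact h2.trans ((Order.add_one_le_of_lt h1).trans hmN)

end Pool.Agent.Helper3.FU
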